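import Pool.Agent.Run7.h105.PC.Defs

set_option autoImplicit false

open Filter Topology Set MeasureTheory
open scoped ENNReal

namespace Pool.Agent.Run7.h105.PC

theorem t_BAD2 (hBOX : S_BOX) (hBAD : S_BAD) : S_BAD2 := by
  intro K hK hc p hp
  have hp0 : (0 : ℝ) < p := by exact_mod_cast hp
  have h1 := hBOX K hK hc
  have h2 : Tendsto (fun k : ℕ => k * p) atTop atTop := tendsto_id.atTop_mul_const' (by omega)
  have h3 : Tendsto (fun k : ℕ => ((cells K (k * p)).card : ℝ) / ((k * p : ℕ) : ℝ)) atTop (𝓝 (volume K).toReal) :=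
    h1.comp h2
  have h4 : Tendsto (fun k : ℕ => (p : ℝ) * (((cells K k).card : ℝ) / k -
      ((cells K (k * p)).card : ℝ) / ((k * p : ℕ) : ℝ))) atTop (𝓝 0) := by
    have := (h1.sub h3).const_mul (p : ℝ)
    rw [sub_self, mul_zero] at this
    exact this
  refine tendsto_of_tendsto_of_tendsto_of_le_of_le' tendsto_const_nhds h4 ?_ ?_
  · exact Eventually.of_forall fun k => by positivity
  · filter_upwards [eventually_ge_atTop 1] with k hk
    have hk0 : (0 : ℝ) < k := by exact_mod_cast hk
    have h5 : ((cells K (k * p)).card : ℝ) + ((bad K k p).card : ℝ) ≤ p * ((cells K k).card : ℝ) := by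
      exact_mod_cast hBAD K k p hk hp
    have h6 : (p : ℝ) * (((cells K k).card : ℝ) / k - ((cells K (k * p)).card : ℝ) / ((k * p : ℕ) : ℝ)) =
        (p * ((cells K k).card : ℝ) - ((cells K (k * p)).card : ℝ)) / k := by
      push_cast
      field_simp
    rw [h6]
    exact div_le_div_of_nonneg_right (by linarith) hk0.le

end Pool.Agent.Run7.h105.PC
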