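import Pool.Agent.Run7.h105.PC.Defs

set_option autoImplicit false

open Filter Topology Set MeasureTheory
open scoped ENNReal

namespace Pool.Agent.Run7.h105.PC

theorem mem_cells {K : Set ℝ} {k i : ℕ} : i ∈ cells K k ↔ i < k + 1 ∧ ∃ x ∈ K, (i : ℝ) / k ≤ x ∧ x < ((i : ℝ) + 1) / k := by
  simp only [cells, Finset.mem_filter, Finset.mem_range]

/-- the cell of a point of `[0,1]` -/
theorem floor_cell {k : ℕ} (hk : 1 ≤ k) {x : ℝ} (hx : x ∈ Icc (0 : ℝ) 1) :
    ⌊(k : ℝ) * x⌋₊ < k + 1 ∧ (⌊(k : ℝ) * x⌋₊ : ℝ) / k ≤ x ∧ x < ((⌊(k : ℝ) * x⌋₊ : ℝ) + 1) / k := by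
  have hk0 : (0 : ℝ) < k := by exact_mod_cast hk
  have h0 : 0 ≤ (k : ℝ) * x := mul_nonneg hk0.le hx.1
  refine ⟨?_, ?_, ?_⟩
  · have h1 : ⌊(k : ℝ) * x⌋₊ ≤ k := by
      have h2 : (k : ℝ) * x ≤ k := by nlinarith [hx.2]
      calc ⌊(k : ℝ) * x⌋₊ ≤ ⌊(k : ℝ)⌋₊ := Nat.floor_mono h2
        _ = k := Nat.floor_natCast k
    omega
  · rw [div_le_iff₀ hk0, mul_comm x]
    exact Nat.floor_le h0
  · rw [lt_div_iff₀ hk0, mul_comm x]
    exact Nat.lt_floor_add_one _

theorem t_BOX : S_BOX := by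
  intro K hK hc
  have hfin : volume K ≠ ⊤ := hc.measure_lt_top.ne
  have key : ∀ k : ℕ, 1 ≤ k → volume K ≤ ((cells K k).card : ℝ≥0∞) * ENNReal.ofReal (1 / k) ∧
      ((cells K k).card : ℝ≥0∞) * ENNReal.ofReal (1 / k) ≤ volume (Metric.cthickening (1 / (k : ℝ)) K) := by
    intro k hk
    have hk0 : (0 : ℝ) < k := by exact_mod_cast hk
    have hvol : ∀ i : ℕ, volume (Ico ((i : ℝ) / k) (((i : ℝ) + 1) / k)) = ENNReal.ofReal (1 / k) := by
      intro i
      rw [Real.volume_Ico]
      congr 1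
      field_simp
      ring
    constructor
    · have h1 : K ⊆ ⋃ i ∈ cells K k, Ico ((i : ℝ) / k) (((i : ℝ) + 1) / k) := by
        intro x hx
        have h2 := floor_cell hk (hK hx)
        exact mem_iUnion₂.2 ⟨⌊(k : ℝ) * x⌋₊, mem_cells.2 ⟨h2.1, x, hx, h2.2⟩, h2.2⟩
      calc volume K ≤ volume (⋃ i ∈ cells K k, Ico ((i : ℝ) / k) (((i : ℝ) + 1) / k)) := measure_mono h1
        _ ≤ ∑ i ∈ cells K k, volume (Ico ((i : ℝ) / k) (((i : ℝ) + 1) / k)) := measure_biUnion_finset_le _ _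
        _ = ((cells K k).card : ℝ≥0∞) * ENNReal.ofReal (1 / k) := by
          simp_rw [hvol]
          rw [Finset.sum_const, nsmul_eq_mul]
    · have h1 : (⋃ i ∈ cells K k, Ico ((i : ℝ) / k) (((i : ℝ) + 1) / k)) ⊆ Metric.cthickening (1 / (k : ℝ)) K := by
        intro z hz
        obtain ⟨i, hi, hz⟩ := mem_iUnion₂.1 hz
        obtain ⟨_, x, hx, hx1, hx2⟩ := mem_cells.1 hi
        refine Metric.mem_cthickening_of_dist_le z x _ K hx ?_
        rw [Real.dist_eq, abs_le]
        have h3 : ((i : ℝ) + 1) / k = (i : ℝ) / k + 1 / k := by ring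
        constructor <;> linarith [hz.1, hz.2]
      have h2 : volume (⋃ i ∈ cells K k, Ico ((i : ℝ) / k) (((i : ℝ) + 1) / k)) =
          ((cells K k).card : ℝ≥0∞) * ENNReal.ofReal (1 / k) := by
        rw [measure_biUnion_finset]
        · simp_rw [hvol]
          rw [Finset.sum_const, nsmul_eq_mul]
        · intro i _ j _ hij
          have hlt : ∀ a b : ℕ, a < b → Disjoint (Ico ((a : ℝ) / k) (((a : ℝ) + 1) / k))
              (Ico ((b : ℝ) / k) (((b : ℝ) + 1) / k)) := by
            intro a b hab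
            rw [Set.disjoint_left]
            intro z hz1 hz2
            have h4 : ((a : ℝ) + 1) / k ≤ (b : ℝ) / k := by
              apply div_le_div_of_nonneg_right _ hk0.le
              exact_mod_cast hab
            linarith [hz1.2, hz2.1]
          rcases lt_or_gt_of_ne hij with h | h
          · exact hlt i j h
          · exact (hlt j i h).symm
        · intro i _
          exact measurableSet_Ico
      rw [← h2]
      exact measure_mono h1
  have h1 : Tendsto (fun k : ℕ => volume (Metric.cthickening (1 / (k : ℝ)) K)) atTop (𝓝 (volume K)) :=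
    (tendsto_measure_cthickening_of_isCompact hc).comp (tendsto_const_div_atTop_nhds_zero_nat 1)
  have h2 : Tendsto (fun k : ℕ => ((cells K k).card : ℝ≥0∞) * ENNReal.ofReal (1 / k)) atTop (𝓝 (volume K)) :=
    tendsto_of_tendsto_of_tendsto_of_le_of_le' tendsto_const_nhds h1
      ((eventually_ge_atTop 1).mono fun k hk => (key k hk).1)
      ((eventually_ge_atTop 1).mono fun k hk => (key k hk).2)
  have h3 := (ENNReal.tendsto_toReal hfin).comp h2
  refine h3.congr fun k => ?_
  simp only [Function.comp_apply]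
  rw [ENNReal.toReal_mul, ENNReal.toReal_natCast, ENNReal.toReal_ofReal (by positivity)]
  ring

end Pool.Agent.Run7.h105.PC
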