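import Mathlib

/-!
Project PC (helper105): the polarization constants of fat Cantor sets (frozen statement S06633 of
MP_efb919_an).

`U s X y` is the Riesz potential of the multiset `X`, `Cov s δ A X` says that it is at least `δ^(-s)` on
`A`. `G s n` is the least number of points (anywhere) with potential at least `1` on `[0,n]`; it is
subadditive, `G s n / n → c > 0`. For `K` in `[0,1]` cut `[0,1]` in cells `[i/k, (i+1)/k)`. The number
of the cells which meet `K` is `k (λ(K) + o(1))`, at all scales; hence, for `p` fixed, all but `o(k)` of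
the cells at scale `k` which meet `K` have all their `p` subcells meeting `K` (the others are `bad`).
So configurations can be transported between the cells and `K` with small errors.
-/

set_option autoImplicit false

open Filter Topology Set MeasureTheory
open scoped ENNReal

namespace Pool.Agent.Run7.h105.PC

/-- the potential of the multiset `X` at `y` -/
noncomputable def U (s : ℝ) (X : Multiset ℝ) (y : ℝ) : ℝ≥0∞ :=
  (X.map fun x => (ENNReal.ofReal |y - x|) ^ (-s)).sum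

/-- `X` has potential at least `δ ^ (-s)` on `A` -/
def Cov (s δ : ℝ) (A : Set ℝ) (X : Multiset ℝ) : Prop :=
  ∀ y ∈ A, (ENNReal.ofReal δ) ^ (-s) ≤ U s X y

/-- the least number of points with potential at least `1` on `[0,n]` -/
noncomputable def G (s : ℝ) (n : ℕ) : ℕ :=
  sInf {k : ℕ | ∃ X : Multiset ℝ, X.card = k ∧ Cov s 1 (Icc 0 (n : ℝ)) X}

open Classical in
/-- the cells `[i/k, (i+1)/k)` which meet `K` -/
noncomputable def cells (K : Set ℝ) (k : ℕ) : Finset ℕ :=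
  (Finset.range (k + 1)).filter (fun i => ∃ x ∈ K, (i : ℝ) / k ≤ x ∧ x < ((i : ℝ) + 1) / k)

open Classical in
/-- the cells which meet `K` and have one of their `p` subcells disjoint from `K` -/
noncomputable def bad (K : Set ℝ) (k p : ℕ) : Finset ℕ :=
  (cells K k).filter (fun i => ∃ j, i * p ≤ j ∧ j < (i + 1) * p ∧ j ∉ cells K (k * p))

theorem U_add (s : ℝ) (X Y : Multiset ℝ) (y : ℝ) : U s (X + Y) y = U s X y + U s Y y := by
  unfold U
  rw [Multiset.map_add, Multiset.sum_add]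

theorem le_U_of_mem {s y x t : ℝ} {X : Multiset ℝ} (hs : 0 < s) (hx : x ∈ X) (h : |y - x| ≤ t) :
    (ENNReal.ofReal t) ^ (-s) ≤ U s X y := by
  have h1 : (ENNReal.ofReal t) ^ (-s) ≤ (ENNReal.ofReal |y - x|) ^ (-s) := by
    rw [ENNReal.rpow_neg, ENNReal.rpow_neg]
    exact ENNReal.inv_le_inv.2 (ENNReal.rpow_le_rpow (ENNReal.ofReal_le_ofReal h) hs.le)
  exact h1.trans (Multiset.single_le_sum (fun _ _ => bot_le) _ (Multiset.mem_map_of_mem _ hx))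

theorem G_le {s : ℝ} {n : ℕ} {X : Multiset ℝ} (h : Cov s 1 (Icc 0 (n : ℝ)) X) : G s n ≤ X.card :=
  Nat.sInf_le ⟨X, rfl, h⟩

/-- monotonicity in `δ` -/
theorem Cov.mono {s δ δ' : ℝ} (hs : 0 < s) (hδ : δ ≤ δ') {A : Set ℝ} {X : Multiset ℝ} (h : Cov s δ A X) :
    Cov s δ' A X := by
  intro y hy
  refine le_trans ?_ (h y hy)
  rw [ENNReal.rpow_neg, ENNReal.rpow_neg]
  exact ENNReal.inv_le_inv.2 (ENNReal.rpow_le_rpow (ENNReal.ofReal_le_ofReal hδ) hs.le)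

/-- SC (30 lines): scaling. `|y - (a + ρ x)| = ρ |(y-a)/ρ - x|`, `ofReal (ρ t) ^ (-s) = ofReal ρ ^ (-s) *
ofReal t ^ (-s)` (also for `t = 0`, both are `⊤`: `ENNReal.ofReal_mul`, `ENNReal.mul_rpow_of_ne_zero` or
`rpow_neg`, `ENNReal.mul_rpow_of_nonneg`, `ENNReal.mul_inv`). -/
def S_SC : Prop := ∀ (s a ρ δ : ℝ), 0 < s → 0 < ρ → 0 < δ → ∀ (A : Set ℝ) (X : Multiset ℝ), Cov s δ A X →
  ∀ y : ℝ, (y - a) / ρ ∈ A → (ENNReal.ofReal (ρ * δ)) ^ (-s) ≤ U s (X.map fun x => a + ρ * x) y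

/-- PERT (50 lines): perturbation of distances by `θ² δ`. If `d x < θ δ` for some `x ∈ X` then
`d' x ≤ (θ + θ²) δ ≤ (1 + θ) δ` and this term is enough (`Multiset.single_le_sum`). Otherwise
`d' x ≤ (1 + θ) d x` for all `x ∈ X`, so each term of the second sum is at least
`ofReal (1 + θ) ^ (-s)` times the term of the first. -/
def S_PERT : Prop := ∀ (s θ δ : ℝ), 0 < s → 0 < θ → θ ≤ 1 → 0 < δ → ∀ (X : Multiset ℝ) (d d' : ℝ → ℝ),
  (∀ x ∈ X, 0 ≤ d x) → (∀ x ∈ X, d' x ≤ d x + θ ^ 2 * δ) →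
  (ENNReal.ofReal δ) ^ (-s) ≤ (X.map fun x => (ENNReal.ofReal (d x)) ^ (-s)).sum →
  (ENNReal.ofReal ((1 + θ) * δ)) ^ (-s) ≤ (X.map fun x => (ENNReal.ofReal (d' x)) ^ (-s)).sum

/-- G1 (40 lines): the minimum is attained, by points of `[0,n]`. The set is not empty: the points
`0, 1, ..., n` have potential at least `1` on `[0,n]` (the point `⌊y⌋₊` is at distance at most `1` from
`y`, `le_U_of_mem`); `Nat.sInf_mem`; project the points to `[0,n]` by `x ↦ max 0 (min n x)`, this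
decreases the distances to the points of `[0,n]`. -/
def S_G1 : Prop := ∀ (s : ℝ), 0 < s → ∀ n : ℕ, ∃ X : Multiset ℝ, X.card = G s n ∧
  (∀ x ∈ X, x ∈ Icc 0 (n : ℝ)) ∧ Cov s 1 (Icc 0 (n : ℝ)) X

/-- SUB (30 lines; uses S_SC, S_G1): translate the configuration of `[0,n]` by `m` (S_SC with `ρ = 1`). -/
def S_SUB : Prop := ∀ (s : ℝ), 0 < s → ∀ m n : ℕ, G s (m + n) ≤ G s m + G s n

/-- POS (80 lines; uses S_G1): `f x y = min 1 (ofReal |y - x| ^ (-s))`. If `X` has potential at least `1`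
at `y` then `1 ≤ (X.map fun x => f x y).sum`; integrate over `[0,n]`: `n ≤ card X * B` with
`B = ∫⁻ y, min 1 (ofReal |y| ^ (-s)) < ⊤` (translation invariance, `lintegral_sub_right_eq_self`), `B` is
finite since `min 1 (ofReal |y| ^ (-s)) ≤ ofReal (2 ^ s * (1 + |y|) ^ (-s))` and
`integrable_one_add_norm` (`finrank ℝ ℝ = 1 < s`). Take `c = 1 / B.toReal` or anything smaller. -/
def S_POS : Prop := ∀ (s : ℝ), 1 < s → ∃ c : ℝ, 0 < c ∧ ∀ n : ℕ, c * n ≤ G s n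

/-- BOX (80 lines): box counting. `K ⊆ ⋃ cells` gives `λ(K) ≤ #cells / k`; the cells are disjoint of
measure `1/k` and contained in `Metric.cthickening (1/k) K`, whose measure tends to `λ(K)`
(`tendsto_measure_cthickening_of_isCompact` or `tendsto_measure_cthickening_of_isClosed`). -/
def S_BOX : Prop := ∀ (K : Set ℝ), K ⊆ Icc 0 1 → IsCompact K →
  Tendsto (fun k : ℕ => ((cells K k).card : ℝ) / k) atTop (𝓝 (volume K).toReal)

/-- BAD (40 lines): a subcell `j` of scale `k p` which meets `K` lies in the cell `j / p`, which meets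
`K`; the fibres of `j ↦ j / p` have at most `p` elements, over a bad cell at most `p - 1`
(`Finset.card_eq_sum_card_fiberwise`). -/
def S_BAD : Prop := ∀ (K : Set ℝ) (k p : ℕ), 1 ≤ k → 1 ≤ p →
  (cells K (k * p)).card + (bad K k p).card ≤ p * (cells K k).card

/-- UPK (100 lines; uses S_SC, S_PERT, S_G1): configurations in `K`. Put `p = m r²`, `δ = 1/(m k)`,
`θ = 1/r`, so `θ² δ = 1/(k p)`. Let `C` be as in S_G1 for `n = m`. For `i ∈ cells \ bad`: for each `x ∈ C`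
the point `i/k + δ x` is in `[i/k, (i+1)/k]`, so in a closed subcell `[j/(kp), (j+1)/(kp)]` with
`i p ≤ j < (i+1) p`, which contains a point `z x ∈ K`, `|z x - (i/k + δ x)| ≤ 1/(kp)`. Let
`X_i = C.map z`. By S_SC and S_PERT it has potential at least `((1+θ) δ)^(-s)` at all
`y ∈ [i/k, (i+1)/k]`. For `i ∈ bad` choose one point of `K` in each subcell of the cell `i` which meets
`K` (at most `p` points); a point `y` of `K` in the cell `i` has distance at most `1/(kp) ≤ δ` to one of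
them (`le_U_of_mem`). `X = ∑ i ∈ cells, X_i`. (`y ∈ K` is in the cell `⌊k y⌋₊ ≤ k`.) -/
def S_UPK : Prop := ∀ (s : ℝ), 0 < s → ∀ (K : Set ℝ), K ⊆ Icc 0 1 → ∀ (m r k : ℕ), 1 ≤ m → 1 ≤ r → 1 ≤ k →
  ∃ X : Multiset ℝ, (∀ x ∈ X, x ∈ K) ∧ Cov s ((1 + 1 / (r : ℝ)) * (1 / ((m : ℝ) * k))) K X ∧
    X.card ≤ G s m * (cells K k).card + (m * r ^ 2) * (bad K k (m * r ^ 2)).card

/-- LOWC (100 lines; uses S_SC, S_PERT, S_G1): from `K` to `[0,1]`. With `p, δ, θ, C` as in S_UPK let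
`Y = X + ∑ i ∈ range (k+1) \ cells, (C.map fun x => i/k + δ x) + ∑ i ∈ bad, {i/k + l δ : l = 0..m}`.
Let `y ∈ [0,1]`, `i = ⌊k y⌋₊ ≤ k`. If `i ∉ cells` use S_SC (and monotonicity). If `i ∈ bad` some point
`i/k + l δ` is at distance at most `δ`. Otherwise the subcell `j = ⌊k p y⌋₊` of `y` contains `z ∈ K`,
`|y - z| ≤ 1/(kp) = θ² δ`, and S_PERT with `d x = |z - x|`, `d' x = |y - x|` gives the bound from the
potential of `X` at `z`. -/
def S_LOWC : Prop := ∀ (s : ℝ), 0 < s → ∀ (K : Set ℝ), K ⊆ Icc 0 1 → ∀ (m r k : ℕ), 1 ≤ m → 1 ≤ r → 1 ≤ k →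
  ∀ X : Multiset ℝ, Cov s (1 / ((m : ℝ) * k)) K X → ∃ Y : Multiset ℝ,
    Cov s ((1 + 1 / (r : ℝ)) * (1 / ((m : ℝ) * k))) (Icc 0 1) Y ∧
    Y.card ≤ X.card + G s m * (k + 1 - (cells K k).card) + (m + 1) * (bad K k (m * r ^ 2)).card

/-- LOWK (30 lines; uses S_SC, S_LOWC): scale by `ρ = m k r / (r + 1) = 1 / ((1 + 1/r) (1/(m k)))`;
`n = ⌊ρ⌋` satisfies `[0,n] ⊆ ρ [0,1]`; `G_le`. -/
def S_LOWK : Prop := ∀ (s : ℝ), 0 < s → ∀ (K : Set ℝ), K ⊆ Icc 0 1 → ∀ (m r k : ℕ), 1 ≤ m → 1 ≤ r → 1 ≤ k →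
  ∀ X : Multiset ℝ, Cov s (1 / ((m : ℝ) * k)) K X →
    G s (m * k * r / (r + 1)) ≤
      X.card + G s m * (k + 1 - (cells K k).card) + (m + 1) * (bad K k (m * r ^ 2)).card

/-- BAD2 (20 lines; uses S_BOX, S_BAD): the number of bad cells is `o(k)`. -/
def S_BAD2 : Prop := ∀ (K : Set ℝ), K ⊆ Icc 0 1 → IsCompact K → ∀ p : ℕ, 1 ≤ p →
  Tendsto (fun k : ℕ => ((bad K k p).card : ℝ) / k) atTop (𝓝 0)

/-- `c = lim G s n / n`. -/
def IsC (s c : ℝ) : Prop := 0 < c ∧ (∀ n : ℕ, c * n ≤ G s n) ∧ ∀ ε : ℝ, 0 < ε → ∃ m : ℕ, 1 ≤ m ∧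
  (G s m : ℝ) ≤ (c + ε) * m

/-- LIM (30 lines; uses S_SUB, S_POS): Fekete's lemma, `Subadditive.lim`, `Subadditive.lim_le_div`,
`Subadditive.tendsto_lim`. -/
def S_LIM : Prop := ∀ (s : ℝ), 1 < s → ∃ c : ℝ, IsC s c

/-- UP (80 lines; uses S_UPK, S_BOX, S_BAD2): choose `m` with `G s m ≤ (c + η) m`, `r` large, and for `δ`
small `k = ⌈(1 + 1/r) / (m δ)⌉₊`, so `(1 + 1/r)/(m k) ≤ δ` and `k δ ≤ (1 + 1/r)/m + δ`;
`card X / k ≤ G s m * (#cells / k) + m r² * (#bad / k)` tends to `G s m * λ ≤ (c + η) m λ`. -/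
def S_UP : Prop := ∀ (s c : ℝ), 1 < s → IsC s c → ∀ (K : Set ℝ), K ⊆ Icc 0 1 → IsCompact K →
  ∀ ε : ℝ, 0 < ε → ∃ δ₀ : ℝ, 0 < δ₀ ∧ ∀ δ : ℝ, 0 < δ → δ < δ₀ → ∃ X : Multiset ℝ, (∀ x ∈ X, x ∈ K) ∧
    Cov s δ K X ∧ (X.card : ℝ) * δ ≤ c * (volume K).toReal + ε

/-- LOW (80 lines; uses S_LOWK, S_BOX, S_BAD2): choose `m` with `G s m ≤ (c + η) m`, `r` large, and for
`δ` small `k = ⌊1 / (m δ)⌋₊`, so `δ ≤ 1/(m k)` (`Cov.mono`) and `1 - m δ ≤ m k δ ≤ 1`;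
`card X ≥ c (m k r/(r+1) - 1) - G s m (k + 1 - #cells) - (m+1) #bad`, divide by `k`; use
`λ = (volume K).toReal ≤ 1`, `#cells / k → λ`, `#bad / k → 0`. -/
def S_LOW : Prop := ∀ (s c : ℝ), 1 < s → IsC s c → ∀ (K : Set ℝ), K ⊆ Icc 0 1 → IsCompact K →
  ∀ ε : ℝ, 0 < ε → ∃ δ₀ : ℝ, 0 < δ₀ ∧ ∀ δ : ℝ, 0 < δ → δ < δ₀ → ∀ X : Multiset ℝ,
    Cov s δ K X → c * (volume K).toReal - ε ≤ (X.card : ℝ) * δ

/-- FIN (helper105; uses S_LIM, S_UP, S_LOW): with `L = ofReal (c λ) ^ (-s)`. -/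
def S_FIN : Prop := ∀ K : Set ℝ, K ⊆ Set.Icc (0 : ℝ) 1 → K.Nonempty → IsCompact K →
  0 < MeasureTheory.volume K → ∀ s : ℝ, 1 < s → ∃ L : ℝ≥0∞, L ≠ ⊤ ∧
    Tendsto (fun N : ℕ => (⨆ (x : Fin N → ℝ) (_ : ∀ i, x i ∈ K),
      ⨅ y ∈ K, ∑ j, (ENNReal.ofReal |y - x j|) ^ (-s)) / ((N : ℝ≥0∞) ^ s)) atTop (𝓝 L)

end Pool.Agent.Run7.h105.PC
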