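import Pool.Agent.Run7.h105.PC.Defs

set_option autoImplicit false

open Filter Topology Set MeasureTheory
open scoped ENNReal

namespace Pool.Agent.Run7.h105.PC

theorem fin_sum (s : ℝ) {N : ℕ} (x : Fin N → ℝ) (y : ℝ) :
    ∑ j, (ENNReal.ofReal |y - x j|) ^ (-s) = U s (Finset.univ.val.map x) y := by
  unfold U
  rw [Multiset.map_map]
  rfl

theorem scale_N (s a : ℝ) (hs : 0 < s) (ha : 0 < a) (N : ℕ) (hN : 1 ≤ N) :
    (ENNReal.ofReal (a / N)) ^ (-s) / (N : ℝ≥0∞) ^ s = (ENNReal.ofReal a) ^ (-s) := by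
  have hN0 : (0 : ℝ) < N := by exact_mod_cast hN
  have h1 : (N : ℝ≥0∞) ^ s ≠ 0 := by
    intro h
    rcases ENNReal.rpow_eq_zero_iff.1 h with h | h
    · have := h.1
      simp only [Nat.cast_eq_zero] at this
      omega
    · exact absurd h.1 (ENNReal.natCast_ne_top N)
  have h2 : (N : ℝ≥0∞) ^ s ≠ ⊤ := ENNReal.rpow_ne_top_of_nonneg hs.le (ENNReal.natCast_ne_top N)
  rw [ENNReal.ofReal_div_of_pos hN0, ENNReal.ofReal_natCast, ENNReal.rpow_neg, ENNReal.rpow_neg,
    ENNReal.div_rpow_of_nonneg _ _ hs.le, ENNReal.inv_div (Or.inl h2) (Or.inl h1), div_eq_mul_inv,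
    div_eq_mul_inv, mul_comm ((N : ℝ≥0∞) ^ s), mul_assoc, ENNReal.mul_inv_cancel h1 h2, mul_one]

theorem exists_fin (N : ℕ) (X : Multiset ℝ) (h : X.card = N) :
    ∃ x : Fin N → ℝ, Finset.univ.val.map x = X := by
  induction X using Quotient.inductionOn with
  | h l =>
    have hl : l.length = N := h
    subst hl
    refine ⟨l.get, ?_⟩
    rw [Fin.univ_val_map, List.ofFn_get]
    rfl

theorem t_FIN (hLIM : S_LIM) (hUP : S_UP) (hLOW : S_LOW) : S_FIN := by
  intro K hK hne hc hpos s hs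
  obtain ⟨c, hC⟩ := hLIM s hs
  have hs0 : 0 < s := by linarith
  have hfin : volume K ≠ ⊤ := hc.measure_lt_top.ne
  set lam := (volume K).toReal with hlam
  have hlam0 : 0 < lam := ENNReal.toReal_pos hpos.ne' hfin
  set D := c * lam with hD
  have hD0 : 0 < D := mul_pos hC.1 hlam0
  obtain ⟨x₀, hx₀⟩ := hne
  set R : ℕ → ℝ≥0∞ := fun N => (⨆ (x : Fin N → ℝ) (_ : ∀ i, x i ∈ K),
      ⨅ y ∈ K, ∑ j, (ENNReal.ofReal |y - x j|) ^ (-s)) / ((N : ℝ≥0∞) ^ s) with hR
  have small : ∀ a δ₀ : ℝ, 0 < a → 0 < δ₀ → ∀ᶠ N : ℕ in atTop, 1 ≤ N ∧ a / N < δ₀ := by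
    intro a δ₀ ha hδ
    have h1 : Tendsto (fun N : ℕ => a / (N : ℝ)) atTop (𝓝 0) := tendsto_const_div_atTop_nhds_zero_nat a
    exact (eventually_ge_atTop 1).and (h1.eventually (gt_mem_nhds hδ))
  have hA : ∀ ε : ℝ, 0 < ε → ∀ᶠ N : ℕ in atTop, (ENNReal.ofReal (D + ε)) ^ (-s) ≤ R N := by
    intro ε hε
    obtain ⟨δ₀, hδ₀, h⟩ := hUP s c hs hC K hK hc ε hε
    filter_upwards [small (D + ε) δ₀ (by positivity) hδ₀] with N hN
    obtain ⟨hN1, hN2⟩ := hN
    have hN0 : (0 : ℝ) < N := by exact_mod_cast hN1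
    obtain ⟨X, hXK, hXc, hX⟩ := h ((D + ε) / N) (by positivity) hN2
    have hcard : X.card ≤ N := by
      have h1 : (X.card : ℝ) * ((D + ε) / N) ≤ D + ε := hX
      have h2 : (X.card : ℝ) * (D + ε) ≤ N * (D + ε) := by
        have h3 := mul_le_mul_of_nonneg_right h1 hN0.le
        rw [mul_assoc, div_mul_cancel₀ _ hN0.ne'] at h3
        linarith
      have h4 : (X.card : ℝ) ≤ N := le_of_mul_le_mul_right h2 (by positivity)
      exact_mod_cast h4
    set X' := X + Multiset.replicate (N - X.card) x₀ with hX'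
    have hcard' : X'.card = N := by
      rw [hX', Multiset.card_add, Multiset.card_replicate]
      omega
    obtain ⟨x, hx⟩ := exists_fin N X' hcard'
    have hxK : ∀ i, x i ∈ K := by
      intro i
      have h1 : x i ∈ X' := by
        rw [← hx]
        exact Multiset.mem_map_of_mem _ (Finset.mem_univ i)
      rw [hX', Multiset.mem_add] at h1
      rcases h1 with h1 | h1
      · exact hXK _ h1
      · rw [Multiset.eq_of_mem_replicate h1]
        exact hx₀
    have h5 : (ENNReal.ofReal ((D + ε) / N)) ^ (-s) ≤ ⨆ (x : Fin N → ℝ) (_ : ∀ i, x i ∈ K),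
        ⨅ y ∈ K, ∑ j, (ENNReal.ofReal |y - x j|) ^ (-s) := by
      refine le_iSup₂_of_le x hxK (le_iInf₂ fun y hy => ?_)
      rw [fin_sum, hx, hX', U_add]
      exact (hXc y hy).trans (le_add_right le_rfl)
    rw [← scale_N s (D + ε) hs0 (by positivity) N hN1]
    exact ENNReal.div_le_div_right h5 _
  have hB : ∀ ε : ℝ, 0 < ε → ε < D → ∀ᶠ N : ℕ in atTop, R N ≤ (ENNReal.ofReal (D - ε)) ^ (-s) := by
    intro ε hε hεD
    obtain ⟨δ₀, hδ₀, h⟩ := hLOW s c hs hC K hK hc (ε / 2) (by positivity)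
    have hDe : 0 < D - ε := by linarith
    filter_upwards [small (D - ε) δ₀ hDe hδ₀] with N hN
    obtain ⟨hN1, hN2⟩ := hN
    have hN0 : (0 : ℝ) < N := by exact_mod_cast hN1
    have h5 : (⨆ (x : Fin N → ℝ) (_ : ∀ i, x i ∈ K),
        ⨅ y ∈ K, ∑ j, (ENNReal.ofReal |y - x j|) ^ (-s)) ≤ (ENNReal.ofReal ((D - ε) / N)) ^ (-s) := by
      refine iSup₂_le fun x hx => ?_
      by_contra hcon
      rw [not_le] at hcon
      have hcov : Cov s ((D - ε) / N) K (Finset.univ.val.map x) := by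
        intro y hy
        rw [← fin_sum]
        exact hcon.le.trans (iInf₂_le y hy)
      have h6 := h ((D - ε) / N) (by positivity) hN2 _ hcov
      rw [Multiset.card_map] at h6
      have h7 : ((Finset.univ.val : Multiset (Fin N)).card : ℝ) = N := by
        rw [Finset.card_val, Finset.card_univ, Fintype.card_fin]
      rw [h7, mul_div_cancel₀ _ hN0.ne'] at h6
      linarith
    rw [← scale_N s (D - ε) hs0 hDe N hN1]
    exact ENNReal.div_le_div_right h5 _
  have hcont : Continuous (fun ε : ℝ => (ENNReal.ofReal (D + ε)) ^ (-s)) :=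
    ENNReal.continuous_rpow_const.comp (ENNReal.continuous_ofReal.comp (continuous_const.add continuous_id))
  refine ⟨(ENNReal.ofReal D) ^ (-s), ?_, ?_⟩
  · rw [ENNReal.rpow_neg]
    refine ENNReal.inv_ne_top.2 fun h => ?_
    rcases ENNReal.rpow_eq_zero_iff.1 h with h | h
    · rw [ENNReal.ofReal_eq_zero] at h
      linarith [h.1]
    · linarith [h.2]
  · rw [tendsto_order]
    constructor
    · intro a ha
      have h1 : ∀ᶠ ε : ℝ in 𝓝 0, a < (ENNReal.ofReal (D + ε)) ^ (-s) := by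
        have := hcont.tendsto 0
        simp only [add_zero] at this
        exact this.eventually (lt_mem_nhds ha)
      obtain ⟨ε, h2, h3⟩ := ((h1.filter_mono nhdsWithin_le_nhds).and
        (self_mem_nhdsWithin : Ioi (0 : ℝ) ∈ 𝓝[>] (0 : ℝ))).exists
      filter_upwards [hA ε h3] with N hN
      exact h2.trans_le hN
    · intro a ha
      have h1 : ∀ᶠ ε : ℝ in 𝓝 0, (ENNReal.ofReal (D + ε)) ^ (-s) < a := by
        have := hcont.tendsto 0
        simp only [add_zero] at this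
        exact this.eventually (gt_mem_nhds ha)
      have h1' : ∀ᶠ ε : ℝ in 𝓝 0, -D < ε := lt_mem_nhds (by linarith)
      obtain ⟨ε, ⟨h2, h2'⟩, h3⟩ := (((h1.and h1').filter_mono nhdsWithin_le_nhds).and
        (self_mem_nhdsWithin : Iio (0 : ℝ) ∈ 𝓝[<] (0 : ℝ))).exists
      have h3' : ε < 0 := h3
      filter_upwards [hB (-ε) (by linarith) (by linarith)] with N hN
      refine lt_of_le_of_lt hN ?_
      rw [sub_neg_eq_add]
      exact h2

end Pool.Agent.Run7.h105.PC
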