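import Pool.Agent.Run7.h105.PC.FIN
import Pool.Agent.Run7.h105.PC.BOX
import Pool.Agent.Run7.h105.PC.BAD2
import Pool.Agent.Run7.h617.PC.SC
import Pool.Agent.Run7.h216.PC.PERT
import Pool.Agent.Run7.h958.PC.G1
import Pool.Agent.Run7.h617.PC.SUB
import Pool.Agent.Run7.h617.PC.POS
import Pool.Agent.Run7.h593.PC.BAD
import Pool.Agent.Run7.h859.PC.UPK
import Pool.Agent.Run7.h227.PC.LOWC
import Pool.Agent.Run7.h617.PC.LOWK
import Pool.Agent.Run7.h459.PC.LIM
import Pool.Agent.Run7.h54.PC.UP
import Pool.Agent.Run7.h712.PC.LOW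

/-!
The polarization constants of compact sets of positive measure in `[0,1]`: the limit exists. Not handed
in for `MP_efb919_an` (frozen statement `S06633`), since the asymptotics of maximal polarization on
rectifiable sets (Anderson, Reznikov, Vlasiuk, White, 2022) probably contain it.
-/

set_option autoImplicit false
open Filter Topology
open scoped ENNReal

namespace Pool.Agent.Run7.h105.PC.Main

/-- For every nonempty compact perfect nowhere dense K in [0,1] of positive Lebesgue measure and every s>1, the N-point Riesz s-polarization constant of K divided by N^s converges to a finite limit as N tends to infinity. -/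
theorem main :
    ∀ K : Set ℝ, K ⊆ Set.Icc (0 : ℝ) 1 → K.Nonempty → IsCompact K → Perfect K →
      IsNowhereDense K → 0 < MeasureTheory.volume K →
      ∀ s : ℝ, 1 < s →
        ∃ L : ℝ≥0∞, L ≠ ⊤ ∧
          Tendsto
            (fun N : ℕ =>
              (⨆ (x : Fin N → ℝ) (_ : ∀ i, x i ∈ K),
                  ⨅ y ∈ K, ∑ j, (ENNReal.ofReal |y - x j|) ^ (-s)) /
                ((N : ℝ≥0∞) ^ s))
            atTop (𝓝 L) := by
  intro K hK hne hc _ _ hpos s hs
  have hSC := Pool.Agent.Run7.h617.PC.t_SC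
  have hPERT := Run7.h216.PC.t_PERT
  have hG1 := Run7.h958.PC.t_G1
  have hBOX := Pool.Agent.Run7.h105.PC.t_BOX
  have hBAD := Pool.Agent.Run7.h593.PC.t_BAD
  have hBAD2 := Pool.Agent.Run7.h105.PC.t_BAD2 hBOX hBAD
  have hUPK := Run7.h859.PC.t_UPK hSC hPERT hG1
  have hLOWC := Pool.Agent.Run7.h227.PC.t_LOWC hSC hPERT hG1
  have hLOWK := Pool.Agent.Run7.h617.PC.t_LOWK hSC hLOWC
  have hLIM := Run7.h459.PC.t_LIM (Pool.Agent.Run7.h617.PC.t_SUB hSC hG1) (Pool.Agent.Run7.h617.PC.t_POS hG1)
  have hUP := Run7.h54.PC.t_UP hUPK hBOX hBAD2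
  have hLOW := Run7.h712.PC.t_LOW hLOWK hBOX hBAD2
  exact Pool.Agent.Run7.h105.PC.t_FIN hLIM hUP hLOW K hK hne hc hpos s hs

end Pool.Agent.Run7.h105.PC.Main
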